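import Pool.Agent.N17.HC.StmB
import Pool.Agent.Y405.CT.CriB

/-!
# Project HC (helper17): common lemmas on the Eisenstein integers (helper758)
-/

set_option autoImplicit false

namespace Pool.Agent.N758.HCB

open Pool.Agent.Y692.QS
open Pool.Agent.Y715.T.Rec (cs nn not_unit)
open Pool.Agent.Y715.T.RecG (Pq cs_of)
open Pool.Agent.Y405.CT (below nat_int)
open Pool.Agent.N17.HC (lam9)

theorem nr_dvd {a b : Ei} (h : a ∣ b) : nr a ∣ nr b := by
  obtain ⟨c, rfl⟩ := h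
  rw [nr_mul]
  exact dvd_mul_right _ _

/-- a prime not dividing `3` has a primary associate -/
theorem prim {ρ : Ei} (hρ : Prime ρ) (h3 : ¬ ρ ∣ 3) : ∃ u : Ei, IsUnit u ∧ Pq (u * ρ) := by
  obtain ⟨u, hu, h⟩ := Pool.Agent.Y715.T.RecC.exists_prim hρ h3
  refine ⟨u, hu, ⟨?_, h⟩⟩
  obtain ⟨v, rfl⟩ := hu
  exact (Associated.prime_iff ⟨v, by rw [mul_comm]⟩).1 hρ

theorem exists_prime_dvd {p : ℕ} (hp : p.Prime) : ∃ ρ : Ei, Prime ρ ∧ ρ ∣ ((p : ℕ) : Ei) := by
  have h0 : ((p : ℕ) : Ei) ≠ 0 := by exact_mod_cast hp.ne_zero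
  have hu : ¬ IsUnit ((p : ℕ) : Ei) := by
    rw [Pool.Agent.Y692.QS.isUnit_iff, Pool.Agent.Y692.QS.nr_nat]
    intro h
    have h1 := hp.one_lt
    have h2 : (1 : ℤ) < (p : ℤ) := by exact_mod_cast h1
    nlinarith
  obtain ⟨ρ, h1, h2⟩ := WfDvdMonoid.exists_irreducible_factor hu h0
  exact ⟨ρ, h1.prime, h2⟩

/-- a primary prime above `p` -/
theorem above {p : ℕ} (hp : p.Prime) (h3 : p ≠ 3) : ∃ ρ : Ei, Pq ρ ∧ ρ ∣ (p : Ei) ∧
    ((p % 3 = 1 ∧ nr ρ = p) ∨ (p % 3 = 2 ∧ nr ρ = (p : ℤ) ^ 2)) := by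
  obtain ⟨ρ₀, h1, h2⟩ := exists_prime_dvd hp
  have h4 : ¬ ρ₀ ∣ 3 := by
    intro h4
    have hc : IsCoprime (p : ℤ) (3 : ℤ) := by
      have : Nat.Coprime p 3 := (Nat.coprime_primes hp Nat.prime_three).2 h3
      exact_mod_cast Nat.isCoprime_iff_coprime.2 this
    obtain ⟨a, b, hab⟩ := hc
    have h5 : ((a : Ei) * (p : Ei) + b * 3) = 1 := by
      have := congrArg (fun z : ℤ => (z : Ei)) hab
      push_cast at this
      exact this
    apply h1.not_isUnit
    apply isUnit_of_dvd_one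
    rw [← h5]
    exact dvd_add (Dvd.dvd.mul_left h2 _) (Dvd.dvd.mul_left h4 _)
  obtain ⟨u, hu, hq⟩ := prim h1 h4
  have hd : u * ρ₀ ∣ (p : Ei) := by
    obtain ⟨v, rfl⟩ := hu
    rw [mul_comm]
    exact (Units.mul_right_dvd).2 h2
  obtain ⟨l, hl, hld, hln, hz⟩ := below hq
  have hlp : l = p := by
    rw [nat_int, hz] at hd
    exact (Nat.prime_dvd_prime_iff_eq hl hp).1 (by exact_mod_cast hd)
  subst hlp
  exact ⟨u * ρ₀, hq, hld, hln⟩

theorem w_pow {k m c : ℕ} (h : k = 3 * m + c) : (w : Ei) ^ k = w ^ c := by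
  rw [h, pow_add, pow_mul, w_cube, one_pow, one_mul]

theorem cs_w1 {π : Ei} (h : Pq π) {p : ℕ} (hn : nr π = p) (h3 : p % 3 = 1) : cs π w = lam9 p := by
  apply cs_of h.prime h.norm
  have h1 : nn π = (p - 1) / 3 := by
    unfold nn
    rw [hn, Int.natAbs_natCast]
  have h2 : (w : Ei) ^ nn π = w ^ (lam9 p).val := by
    rw [h1]
    rcases (by omega : p % 9 = 1 ∨ p % 9 = 4 ∨ p % 9 = 7) with h4 | h4 | h4
    · have e : lam9 p = 0 := by
        unfold lam9
        rw [if_neg (by omega), if_neg (by omega)]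
      rw [e]
      exact w_pow (m := p / 9) (c := 0) (by omega)
    · have e : lam9 p = 1 := by
        unfold lam9
        rw [if_neg (by omega), if_pos (by omega)]
      rw [e]
      exact w_pow (m := p / 9) (c := 1) (by omega)
    · have e : lam9 p = 2 := by
        unfold lam9
        rw [if_pos (by omega)]
      rw [e]
      exact w_pow (m := p / 9) (c := 2) (by omega)
  rw [h2, sub_self]
  exact dvd_zero _

theorem cs_w2 {π : Ei} (h : Pq π) {p : ℕ} (hn : nr π = (p : ℤ) ^ 2) (h3 : p % 3 = 2) :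
    cs π w = 2 * lam9 p := by
  apply cs_of h.prime h.norm
  have h1 : nn π = (p ^ 2 - 1) / 3 := by
    unfold nn
    rw [hn, Int.natAbs_pow, Int.natAbs_natCast]
  have h2 : (w : Ei) ^ nn π = w ^ (2 * lam9 p).val := by
    rw [h1]
    obtain ⟨k, hk⟩ : ∃ k, k = p / 9 := ⟨_, rfl⟩
    rcases (by omega : p % 9 = 2 ∨ p % 9 = 5 ∨ p % 9 = 8) with h4 | h4 | h4
    · have e : lam9 p = 2 := by
        unfold lam9
        rw [if_pos (by omega)]
      have hp : p = 9 * k + 2 := by omega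
      have e2 : p ^ 2 - 1 = 3 * (3 * (9 * k ^ 2 + 4 * k) + 1) := by
        rw [hp]
        have : (9 * k + 2) ^ 2 = 3 * (3 * (9 * k ^ 2 + 4 * k) + 1) + 1 := by ring
        omega
      rw [e, e2, Nat.mul_div_cancel_left _ (by norm_num)]
      exact w_pow (m := 9 * k ^ 2 + 4 * k) (c := 1) rfl
    · have e : lam9 p = 1 := by
        unfold lam9
        rw [if_neg (by omega), if_pos (by omega)]
      have hp : p = 9 * k + 5 := by omega
      have e2 : p ^ 2 - 1 = 3 * (3 * (9 * k ^ 2 + 10 * k + 2) + 2) := by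
        rw [hp]
        have : (9 * k + 5) ^ 2 = 3 * (3 * (9 * k ^ 2 + 10 * k + 2) + 2) + 1 := by ring
        omega
      rw [e, e2, Nat.mul_div_cancel_left _ (by norm_num)]
      exact w_pow (m := 9 * k ^ 2 + 10 * k + 2) (c := 2) rfl
    · have e : lam9 p = 0 := by
        unfold lam9
        rw [if_neg (by omega), if_neg (by omega)]
      have hp : p = 9 * k + 8 := by omega
      have e2 : p ^ 2 - 1 = 3 * (3 * (9 * k ^ 2 + 16 * k + 7) + 0) := by
        rw [hp]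
        have : (9 * k + 8) ^ 2 = 3 * (3 * (9 * k ^ 2 + 16 * k + 7) + 0) + 1 := by ring
        omega
      rw [e, e2, Nat.mul_div_cancel_left _ (by norm_num)]
      exact w_pow (m := 9 * k ^ 2 + 16 * k + 7) (c := 0) rfl
  rw [h2, sub_self]
  exact dvd_zero _

end Pool.Agent.N758.HCB
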